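import Mathlib

set_option autoImplicit false

/-!
The stage-by-stage construction behind the positive answer to MP_054fd8_lc.

The natural numbers are split into the blocks `{y | Nat.sqrt y = k}`.  At stage `s` every
strategy `e` has a finite decided list `Dst s e`, containing exactly one element of each block
`k < (Dst s e).length`.
-/

namespace Pool.Agent.helper56.MAD

open Nat.Partrec (Code)
open Nat.Partrec.Code (evaln)

/-- initial decided list of strategy `e`: the squares in the blocks `0,...,e` -/
def initL (e : ℕ) : List ℕ := (List.range (e + 1)).map (fun k => k * k)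

/-- the decided list of strategy `e` in the state `S` -/
def D (S : List (List ℕ)) (e : ℕ) : List ℕ := (S[e]?).getD (initL e)

/-- `y` is used by some strategy `i < m` in the state `S` -/
def used (S : List (List ℕ)) (m y : ℕ) : Prop := ∃ i < m, y ∈ D S i

instance (S : List (List ℕ)) (m y : ℕ) : Decidable (used S m y) := by
  unfold used; infer_instance

/-- by stage `s` the diagonal function has guessed `y` in the block of `y` -/
def bad (s y : ℕ) : Prop :=
  evaln s (Denumerable.ofNat Code (Nat.unpair (Nat.sqrt y)).1) (Nat.sqrt y) = some y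

instance (s y : ℕ) : Decidable (bad s y) := by unfold bad; infer_instance

/-- `r` is a candidate for strategy `e` at stage `s` in the state `S` -/
def isCand (s : ℕ) (S : List (List ℕ)) (e r : ℕ) : Prop :=
  (D S e).length ≤ Nat.sqrt r ∧ Nat.sqrt r < s ∧ Nat.sqrt r * Nat.sqrt r ≠ r ∧
    evaln s (Denumerable.ofNat Code e) r = some 1 ∧ ¬ used S (D S e).length r

instance (s : ℕ) (S : List (List ℕ)) (e r : ℕ) : Decidable (isCand s S e r) := by
  unfold isCand; infer_instance

def cand (s : ℕ) (S : List (List ℕ)) (e : ℕ) : ℕ :=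
  Nat.findGreatest (fun r => isCand s S e r) (s * s)

/-- an admissible choice in block `k` -/
def isPick (s : ℕ) (S : List (List ℕ)) (k y : ℕ) : Prop :=
  Nat.sqrt y = k ∧ k * k ≠ y ∧ ¬ bad s y ∧ ¬ used S k y

instance (s : ℕ) (S : List (List ℕ)) (k y : ℕ) : Decidable (isPick s S k y) := by
  unfold isPick; infer_instance

def pick (s : ℕ) (S : List (List ℕ)) (k : ℕ) : ℕ :=
  Nat.findGreatest (fun y => isPick s S k y) (k * k + 2 * k)

def newD (s : ℕ) (S : List (List ℕ)) (e : ℕ) : List ℕ :=
  if cand s S e = 0 then D S e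
  else D S e ++ (List.range (s - (D S e).length)).map (fun j =>
    if Nat.sqrt (cand s S e) = (D S e).length + j then cand s S e
    else pick s S ((D S e).length + j))

/-- one stage of the construction -/
def step (s : ℕ) (S : List (List ℕ)) : List (List ℕ) :=
  (List.range (s + 1)).map (fun e => if e = (Nat.unpair s).1 then newD s S e else D S e)

/-- the state at stage `s` -/
def St : ℕ → List (List ℕ)
  | 0 => []
  | s + 1 => step s (St s)

/-- the decided list of strategy `e` at stage `s` -/
def Dst (s e : ℕ) : List ℕ := D (St s) e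

/-! ### Primitive recursiveness -/

lemma primrec_initL : Primrec initL := by
  unfold initL
  exact Primrec.list_map (Primrec.list_range.comp Primrec.succ)
    ((Primrec.nat_mul.comp Primrec.snd Primrec.snd).to₂)

lemma primrec_D : Primrec₂ D := by
  unfold D
  exact Primrec.option_getD.comp (Primrec.list_getElem?.comp Primrec.fst Primrec.snd)
    (primrec_initL.comp Primrec.snd)

lemma primrec_mem : PrimrecRel (fun (y : ℕ) (L : List ℕ) => y ∈ L) := by
  have h : PrimrecRel (fun (L : List ℕ) (y : ℕ) => ∃ a ∈ L, a = y) :=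
    PrimrecRel.exists_mem_list Primrec.eq
  exact (h.swap).of_eq (fun a b => by simp [Function.swap])

lemma exists_lt' {α : Type*} [Primcodable α] {f : α → ℕ} {R : α → ℕ → Prop}
    (hf : Primrec f) (hR : PrimrecRel R) : PrimrecPred (fun a => ∃ x < f a, R a x) := by
  have h : PrimrecRel (fun (L : List ℕ) (a : α) => ∃ x ∈ L, R a x) :=
    PrimrecRel.exists_mem_list (hR.swap)
  exact (h.comp (Primrec.list_range.comp hf) Primrec.id).of_eq (by simp)

lemma forall_lt' {α : Type*} [Primcodable α] {f : α → ℕ} {R : α → ℕ → Prop}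
    (hf : Primrec f) (hR : PrimrecRel R) : PrimrecPred (fun a => ∀ x < f a, R a x) := by
  have h : PrimrecRel (fun (L : List ℕ) (a : α) => ∀ x ∈ L, R a x) :=
    PrimrecRel.forall_mem_list (hR.swap)
  exact (h.comp (Primrec.list_range.comp hf) Primrec.id).of_eq (by simp)

lemma primrec_used : PrimrecPred (fun p : List (List ℕ) × ℕ × ℕ => used p.1 p.2.1 p.2.2) := by
  unfold used
  refine exists_lt' (Primrec.fst.comp Primrec.snd) ?_
  exact PrimrecRel.comp (R := fun (y : ℕ) (L : List ℕ) => y ∈ L) primrec_mem
    (Primrec.snd.comp (Primrec.snd.comp Primrec.fst))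
    (primrec_D.comp (Primrec.fst.comp Primrec.fst) Primrec.snd)

lemma primrec_sqrt : Primrec Nat.sqrt := Primrec.nat_sqrt

lemma primrec_evaln_eq {α : Type*} [Primcodable α] {s e x : α → ℕ} {y : α → ℕ}
    (hs : Primrec s) (he : Primrec e) (hx : Primrec x) (hy : Primrec y) :
    PrimrecPred (fun a => evaln (s a) (Denumerable.ofNat Code (e a)) (x a) = some (y a)) := by
  refine PrimrecRel.comp Primrec.eq ?_ (Primrec.option_some.comp hy)
  exact Nat.Partrec.Code.primrec_evaln.comp
    (Primrec.pair (Primrec.pair hs ((Primrec.ofNat Code).comp he)) hx)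

lemma primrec_bad : PrimrecRel bad := by
  unfold bad
  exact primrec_evaln_eq Primrec.fst
    (Primrec.fst.comp (Primrec.unpair.comp (primrec_sqrt.comp Primrec.snd)))
    (primrec_sqrt.comp Primrec.snd) Primrec.snd

lemma primrec_isCand :
    PrimrecRel (fun (p : ℕ × List (List ℕ) × ℕ) (r : ℕ) => isCand p.1 p.2.1 p.2.2 r) := by
  unfold isCand
  have hs : Primrec (fun a : (ℕ × List (List ℕ) × ℕ) × ℕ => a.1.1) :=
    Primrec.fst.comp Primrec.fst
  have hS : Primrec (fun a : (ℕ × List (List ℕ) × ℕ) × ℕ => a.1.2.1) :=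
    Primrec.fst.comp (Primrec.snd.comp Primrec.fst)
  have he : Primrec (fun a : (ℕ × List (List ℕ) × ℕ) × ℕ => a.1.2.2) :=
    Primrec.snd.comp (Primrec.snd.comp Primrec.fst)
  have hr : Primrec (fun a : (ℕ × List (List ℕ) × ℕ) × ℕ => a.2) := Primrec.snd
  have hsq := primrec_sqrt.comp hr
  have hlen : Primrec (fun a : (ℕ × List (List ℕ) × ℕ) × ℕ => (D a.1.2.1 a.1.2.2).length) :=
    Primrec.list_length.comp (primrec_D.comp hS he)
  refine PrimrecPred.and (Primrec.nat_le.comp hlen hsq) ?_
  refine PrimrecPred.and (Primrec.nat_lt.comp hsq hs) ?_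
  refine PrimrecPred.and (PrimrecPred.not (Primrec.eq.comp (Primrec.nat_mul.comp hsq hsq) hr)) ?_
  refine PrimrecPred.and (primrec_evaln_eq hs he hr (Primrec.const 1)) ?_
  exact PrimrecPred.not (primrec_used.comp (Primrec.pair hS (Primrec.pair hlen hr)))

lemma primrec_cand : Primrec (fun p : ℕ × List (List ℕ) × ℕ => cand p.1 p.2.1 p.2.2) := by
  unfold cand
  exact Primrec.nat_findGreatest (Primrec.nat_mul.comp Primrec.fst Primrec.fst) primrec_isCand

lemma primrec_isPick :
    PrimrecRel (fun (p : ℕ × List (List ℕ) × ℕ) (y : ℕ) => isPick p.1 p.2.1 p.2.2 y) := by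
  unfold isPick
  have hs : Primrec (fun a : (ℕ × List (List ℕ) × ℕ) × ℕ => a.1.1) :=
    Primrec.fst.comp Primrec.fst
  have hS : Primrec (fun a : (ℕ × List (List ℕ) × ℕ) × ℕ => a.1.2.1) :=
    Primrec.fst.comp (Primrec.snd.comp Primrec.fst)
  have hk : Primrec (fun a : (ℕ × List (List ℕ) × ℕ) × ℕ => a.1.2.2) :=
    Primrec.snd.comp (Primrec.snd.comp Primrec.fst)
  have hy : Primrec (fun a : (ℕ × List (List ℕ) × ℕ) × ℕ => a.2) := Primrec.snd
  refine PrimrecPred.and (Primrec.eq.comp (primrec_sqrt.comp hy) hk) ?_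
  refine PrimrecPred.and (PrimrecPred.not (Primrec.eq.comp (Primrec.nat_mul.comp hk hk) hy)) ?_
  refine PrimrecPred.and (PrimrecPred.not (primrec_bad.comp hs hy)) ?_
  exact PrimrecPred.not (primrec_used.comp (Primrec.pair hS (Primrec.pair hk hy)))

lemma primrec_pick : Primrec (fun p : ℕ × List (List ℕ) × ℕ => pick p.1 p.2.1 p.2.2) := by
  unfold pick
  have hk : Primrec (fun a : ℕ × List (List ℕ) × ℕ => a.2.2) := Primrec.snd.comp Primrec.snd
  exact Primrec.nat_findGreatest
    (Primrec.nat_add.comp (Primrec.nat_mul.comp hk hk)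
      (Primrec.nat_mul.comp (Primrec.const 2) hk)) primrec_isPick

lemma primrec_newD : Primrec (fun p : ℕ × List (List ℕ) × ℕ => newD p.1 p.2.1 p.2.2) := by
  unfold newD
  have hs : Primrec (fun a : ℕ × List (List ℕ) × ℕ => a.1) := Primrec.fst
  have hS : Primrec (fun a : ℕ × List (List ℕ) × ℕ => a.2.1) := Primrec.fst.comp Primrec.snd
  have he : Primrec (fun a : ℕ × List (List ℕ) × ℕ => a.2.2) := Primrec.snd.comp Primrec.snd
  have hD : Primrec (fun a : ℕ × List (List ℕ) × ℕ => D a.2.1 a.2.2) := primrec_D.comp hS he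
  have hlen : Primrec (fun a : ℕ × List (List ℕ) × ℕ => (D a.2.1 a.2.2).length) :=
    Primrec.list_length.comp hD
  refine Primrec.ite (Primrec.eq.comp primrec_cand (Primrec.const 0)) hD ?_
  refine Primrec.list_append.comp hD ?_
  refine Primrec.list_map (Primrec.list_range.comp (Primrec.nat_sub.comp hs hlen)) ?_
  have h1 : Primrec (fun a : (ℕ × List (List ℕ) × ℕ) × ℕ => cand a.1.1 a.1.2.1 a.1.2.2) :=
    primrec_cand.comp Primrec.fst
  have h2 : Primrec (fun a : (ℕ × List (List ℕ) × ℕ) × ℕ => (D a.1.2.1 a.1.2.2).length + a.2) :=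
    Primrec.nat_add.comp (hlen.comp Primrec.fst) Primrec.snd
  exact Primrec.ite (Primrec.eq.comp (primrec_sqrt.comp h1) h2) h1
    (primrec_pick.comp (Primrec.pair (hs.comp Primrec.fst) (Primrec.pair (hS.comp Primrec.fst) h2)))

lemma primrec_step : Primrec₂ step := by
  unfold step
  refine Primrec.list_map (Primrec.list_range.comp (Primrec.succ.comp Primrec.fst)) ?_
  have hs : Primrec (fun a : (ℕ × List (List ℕ)) × ℕ => a.1.1) := Primrec.fst.comp Primrec.fst
  have hS : Primrec (fun a : (ℕ × List (List ℕ)) × ℕ => a.1.2) := Primrec.snd.comp Primrec.fst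
  have he : Primrec (fun a : (ℕ × List (List ℕ)) × ℕ => a.2) := Primrec.snd
  exact Primrec.ite (Primrec.eq.comp he (Primrec.fst.comp (Primrec.unpair.comp hs)))
    (primrec_newD.comp (Primrec.pair hs (Primrec.pair hS he))) (primrec_D.comp hS he)

lemma primrec_St : Primrec St := by
  have h : Primrec (fun n : ℕ => (Nat.rec [] (fun s S => step s S) n : List (List ℕ))) :=
    Primrec.nat_rec₁ [] primrec_step
  refine h.of_eq (fun n => ?_)
  induction n with
  | zero => rfl
  | succ n ih => simp only [St]; rw [← ih]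

lemma primrec_Dst : Primrec₂ Dst := by
  unfold Dst
  exact primrec_D.comp (primrec_St.comp Primrec.fst) Primrec.snd


/-! ### Combinatorial properties of the construction -/

lemma St_length (s : ℕ) : (St s).length = s := by
  cases s with
  | zero => rfl
  | succ s => simp [St, step]

lemma D_of_le {S : List (List ℕ)} {e : ℕ} (h : S.length ≤ e) : D S e = initL e := by
  unfold D
  rw [List.getElem?_eq_none h]; rfl

lemma Dst_zero (e : ℕ) : Dst 0 e = initL e := D_of_le (by simp [St])

lemma D_step (s e : ℕ) (S : List (List ℕ)) :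
    D (step s S) e = if e < s + 1 then (if e = (Nat.unpair s).1 then newD s S e else D S e)
      else initL e := by
  unfold D step
  split_ifs with h1 h2
  · rw [List.getElem?_map, List.getElem?_range h1]; simp [h2]
  · rw [List.getElem?_map, List.getElem?_range h1]; simp [h2]; rfl
  · rw [List.getElem?_eq_none (by simpa using h1)]; rfl

lemma Dst_succ_ne {s e : ℕ} (h : e ≠ (Nat.unpair s).1) : Dst (s + 1) e = Dst s e := by
  unfold Dst
  rw [St, D_step]
  split_ifs with h1
  · rfl
  · exact (D_of_le (by rw [St_length]; omega)).symm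

lemma Dst_succ_eq {s e : ℕ} (h : e = (Nat.unpair s).1) : Dst (s + 1) e = newD s (St s) e := by
  unfold Dst
  rw [St, D_step, if_pos, if_pos h]
  rw [h]
  exact Nat.lt_succ_of_le (Nat.unpair_left_le s)

/-- the block condition on a decided list -/
def Blk (L : List ℕ) : Prop := L.map Nat.sqrt = List.range L.length

lemma Blk.mem_iff {L : List ℕ} (h : Blk L) (y : ℕ) : y ∈ L ↔ L[Nat.sqrt y]? = some y := by
  constructor
  · intro hy
    obtain ⟨i, hi, rfl⟩ := List.getElem_of_mem hy
    have h1 : (L.map Nat.sqrt)[i]'(by simpa using hi) = i := by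
      simp only [Blk] at h
      simp [h]
    rw [List.getElem_map] at h1
    rw [h1]
    exact List.getElem?_eq_getElem hi
  · intro hy
    exact List.mem_of_getElem? hy

lemma Blk.sqrt_lt {L : List ℕ} (h : Blk L) {y : ℕ} (hy : y ∈ L) : Nat.sqrt y < L.length := by
  have := (h.mem_iff y).1 hy
  by_contra hc
  rw [List.getElem?_eq_none (by omega)] at this
  simp at this

lemma Blk.exists {L : List ℕ} (h : Blk L) {k : ℕ} (hk : k < L.length) :
    ∃ y ∈ L, Nat.sqrt y = k := by
  refine ⟨L[k], List.getElem_mem hk, ?_⟩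
  have h1 : (L.map Nat.sqrt)[k]'(by simpa using hk) = k := by
    simp only [Blk] at h
    simp [h]
  rwa [List.getElem_map] at h1

lemma Blk.inj {L : List ℕ} (h : Blk L) {y y' : ℕ} (hy : y ∈ L) (hy' : y' ∈ L)
    (hs : Nat.sqrt y = Nat.sqrt y') : y = y' := by
  have h1 := (h.mem_iff y).1 hy
  have h2 := (h.mem_iff y').1 hy'
  rw [hs, h2] at h1
  exact (Option.some.inj h1).symm

lemma Blk_initL (e : ℕ) : Blk (initL e) := by
  unfold Blk initL
  rw [List.map_map]
  simp only [List.length_map, List.length_range]
  conv_rhs => rw [← List.map_id (List.range (e + 1))]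
  apply List.map_congr_left
  intro k _
  simp [Nat.sqrt_eq]

lemma sqrt_mul_add {k j : ℕ} (h : j ≤ 2 * k) : Nat.sqrt (k * k + j) = k := by
  rw [Nat.sqrt_add_eq _ (by omega)]

lemma exists_isPick {s : ℕ} {S : List (List ℕ)} (hS : ∀ i, Blk (D S i)) {e k : ℕ} (hek : e < k)
    (hlen : (D S e).length ≤ k) : ∃ y ≤ k * k + 2 * k, isPick s S k y := by
  classical
  by_contra hcon
  push Not at hcon
  set B : Finset ℕ := Finset.Icc (k * k) (k * k + 2 * k) with hB
  set g : ℕ := (evaln s (Denumerable.ofNat Code (Nat.unpair k).1) k).getD 0 with hg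
  set C : Finset ℕ := {k * k} ∪ {g} ∪
    ((Finset.range k).erase e).image (fun i => ((D S i)[k]?).getD 0) with hC
  have hsub : B ⊆ C := by
    intro y hy
    rw [hB, Finset.mem_Icc] at hy
    have hsq : Nat.sqrt y = k := by
      obtain ⟨j, rfl⟩ := Nat.exists_eq_add_of_le hy.1
      exact sqrt_mul_add (by omega)
    have hn := hcon y hy.2
    unfold isPick at hn
    by_cases h1 : k * k = y
    · simp [hC, h1]
    by_cases h2 : bad s y
    · unfold bad at h2
      rw [hsq] at h2
      simp [hC, hg, h2]
    by_cases h3 : used S k y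
    · obtain ⟨i, hi, hyi⟩ := h3
      have hm := ((hS i).mem_iff y).1 hyi
      rw [hsq] at hm
      have hie : i ≠ e := by
        rintro rfl
        have := (hS i).sqrt_lt hyi
        omega
      simp only [hC, Finset.mem_union, Finset.mem_image, Finset.mem_erase, Finset.mem_range]
      right
      exact ⟨i, ⟨hie, hi⟩, by simp [hm]⟩
    · exact absurd ⟨hsq, h1, h2, h3⟩ hn
  have hcard := Finset.card_le_card hsub
  have hBc : B.card = 2 * k + 1 := by
    rw [hB, Nat.card_Icc]; omega
  have hCc : C.card ≤ 1 + 1 + (k - 1) := by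
    refine (Finset.card_union_le _ _).trans ?_
    refine Nat.add_le_add ?_ ?_
    · refine (Finset.card_union_le _ _).trans ?_
      simp
    · refine Finset.card_image_le.trans ?_
      rw [Finset.card_erase_of_mem (by simpa using hek), Finset.card_range]
  omega

lemma pick_spec {s : ℕ} {S : List (List ℕ)} (hS : ∀ i, Blk (D S i)) {e k : ℕ} (hek : e < k)
    (hlen : (D S e).length ≤ k) : isPick s S k (pick s S k) := by
  obtain ⟨y, hy, hp⟩ := exists_isPick (s := s) hS hek hlen
  exact Nat.findGreatest_spec (P := fun y => isPick s S k y) hy hp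

lemma isCand.lt {s : ℕ} {S : List (List ℕ)} {e r : ℕ} (h : isCand s S e r) : r < s * s := by
  have := h.2.1
  rwa [Nat.sqrt_lt] at this

lemma isCand.ne_zero {s : ℕ} {S : List (List ℕ)} {e r : ℕ} (h : isCand s S e r) : r ≠ 0 := by
  rintro rfl
  exact h.2.2.1 (by simp)

lemma cand_spec {s : ℕ} {S : List (List ℕ)} {e : ℕ} (h : cand s S e ≠ 0) :
    isCand s S e (cand s S e) :=
  Nat.findGreatest_of_ne_zero (P := fun r => isCand s S e r) rfl h

lemma cand_ne_zero {s : ℕ} {S : List (List ℕ)} {e r : ℕ} (h : isCand s S e r) :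
    cand s S e ≠ 0 := by
  have h1 : r ≤ cand s S e :=
    Nat.le_findGreatest (P := fun r => isCand s S e r) h.lt.le h
  have h2 := h.ne_zero
  omega

/-- description of the list `newD` when a candidate exists -/
lemma newD_spec {s : ℕ} {S : List (List ℕ)} (hS : ∀ i, Blk (D S i)) {e : ℕ}
    (hlen : e < (D S e).length) (h : cand s S e ≠ 0) :
    Blk (newD s S e) ∧ (newD s S e).length = s ∧ (D S e).length < s ∧
      D S e <+: newD s S e ∧ cand s S e ∈ newD s S e ∧
      ∀ y ∈ newD s S e, y ∈ D S e ∨ ((D S e).length ≤ Nat.sqrt y ∧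
        (y = cand s S e ∨ isPick s S (Nat.sqrt y) y)) := by
  have hc := cand_spec h
  set c := cand s S e with hcdef
  have hls : (D S e).length < s := lt_of_le_of_lt hc.1 hc.2.1
  have hN : newD s S e = D S e ++ (List.range (s - (D S e).length)).map (fun j =>
    if Nat.sqrt c = (D S e).length + j then c
    else pick s S ((D S e).length + j)) := by
    unfold newD
    rw [if_neg h]
  have hval : ∀ j, Nat.sqrt (if Nat.sqrt c = (D S e).length + j then c
    else pick s S ((D S e).length + j)) = (D S e).length + j := by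
    intro j
    split_ifs with h1
    · exact h1
    · exact (pick_spec (e := e) hS (by omega) (by omega)).1
  have hL : (newD s S e).length = s := by
    rw [hN]; simp; omega
  refine ⟨?_, hL, hls, ?_, ?_, ?_⟩
  · unfold Blk
    rw [hL, hN, List.map_append, List.map_map]
    have h1 : (D S e).map Nat.sqrt = List.range (D S e).length := hS e
    have h2 : (List.range (s - (D S e).length)).map (Nat.sqrt ∘ fun j =>
      if Nat.sqrt c = (D S e).length + j then c
      else pick s S ((D S e).length + j)) =
      (List.range (s - (D S e).length)).map (fun j => (D S e).length + j) := by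
      apply List.map_congr_left
      intro j _
      exact hval j
    rw [h1, h2, ← List.range_add]
    congr 1
    omega
  · rw [hN]; exact List.prefix_append _ _
  · rw [hN, List.mem_append]
    right
    rw [List.mem_map]
    refine ⟨Nat.sqrt c - (D S e).length, ?_, ?_⟩
    · rw [List.mem_range]
      have := hc.1
      have := hc.2.1
      omega
    · rw [if_pos]
      have := hc.1
      omega
  · intro y hy
    rw [hN, List.mem_append] at hy
    rcases hy with hy | hy
    · exact Or.inl hy
    · right
      rw [List.mem_map] at hy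
      obtain ⟨j, hj, rfl⟩ := hy
      rw [hval j]
      refine ⟨by omega, ?_⟩
      split_ifs with h1
      · exact Or.inl rfl
      · exact Or.inr (pick_spec (e := e) hS (by omega) (by omega))

lemma initL_length (e : ℕ) : (initL e).length = e + 1 := by simp [initL]

/-- the basic invariant -/
lemma inv (s : ℕ) : ∀ e, Blk (Dst s e) ∧ initL e <+: Dst s e := by
  induction s with
  | zero => intro e; rw [Dst_zero]; exact ⟨Blk_initL e, List.prefix_refl _⟩
  | succ s ih =>
    intro e
    by_cases he : e = (Nat.unpair s).1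
    · rw [Dst_succ_eq he]
      by_cases hc : cand s (St s) e = 0
      · have : newD s (St s) e = Dst s e := by unfold newD; rw [if_pos hc]; rfl
        rw [this]; exact ih e
      · have hlen : e < (D (St s) e).length := by
          have h1 := (ih e).2.length_le
          rw [initL_length] at h1
          exact h1
        obtain ⟨h1, h2, h3, h4, h5, h6⟩ := newD_spec (fun i => (ih i).1) hlen hc
        exact ⟨h1, (ih e).2.trans h4⟩
    · rw [Dst_succ_ne he]; exact ih e

lemma blk (s e : ℕ) : Blk (Dst s e) := (inv s e).1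

lemma len_gt (s e : ℕ) : e < (Dst s e).length := by
  have h1 := (inv s e).2.length_le
  rw [initL_length] at h1
  exact h1

lemma sq_mem {s e k : ℕ} (h : k ≤ e) : k * k ∈ Dst s e := by
  apply (inv s e).2.subset
  unfold initL
  rw [List.mem_map]
  exact ⟨k, by simpa using Nat.lt_succ_of_le h, rfl⟩

/-- one stage either leaves `Dst s e` unchanged or extends it to length `s` -/
lemma step_cases (s e : ℕ) : Dst (s + 1) e = Dst s e ∨
    (e = (Nat.unpair s).1 ∧ (Dst (s + 1) e).length = s ∧ (Dst s e).length < s ∧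
      Dst s e <+: Dst (s + 1) e ∧ ∃ r ∈ Dst (s + 1) e, isCand s (St s) e r ∧
      ∀ y ∈ Dst (s + 1) e, y ∈ Dst s e ∨ ((Dst s e).length ≤ Nat.sqrt y ∧
        (y = r ∨ isPick s (St s) (Nat.sqrt y) y))) := by
  by_cases he : e = (Nat.unpair s).1
  · rw [Dst_succ_eq he]
    by_cases hc : cand s (St s) e = 0
    · left
      unfold newD; rw [if_pos hc]; rfl
    · right
      obtain ⟨h1, h2, h3, h4, h5, h6⟩ := newD_spec (fun i => blk s i) (len_gt s e) hc
      exact ⟨he, h2, h3, h4, _, h5, cand_spec hc, h6⟩
  · left; exact Dst_succ_ne he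

lemma step_cand {s e r : ℕ} (he : e = (Nat.unpair s).1) (hr : isCand s (St s) e r) :
    (Dst s e).length < (Dst (s + 1) e).length := by
  rw [Dst_succ_eq he]
  obtain ⟨h1, h2, h3, h4, h5, h6⟩ := newD_spec (fun i => blk s i) (len_gt s e) (cand_ne_zero hr)
  rw [h2]; exact h3

lemma Dst_prefix {s t : ℕ} (h : s ≤ t) (e : ℕ) : Dst s e <+: Dst t e := by
  induction t, h using Nat.le_induction with
  | base => exact List.prefix_refl _
  | succ t _ ih =>
    rcases step_cases t e with h | h
    · rw [h]; exact ih
    · exact ih.trans h.2.2.2.1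

lemma nonsq (s e : ℕ) : ∀ y ∈ Dst s e, e < Nat.sqrt y → Nat.sqrt y * Nat.sqrt y ≠ y := by
  induction s with
  | zero =>
    intro y hy h
    rw [Dst_zero] at hy
    unfold initL at hy
    rw [List.mem_map] at hy
    obtain ⟨k, hk, rfl⟩ := hy
    rw [List.mem_range] at hk
    rw [Nat.sqrt_eq] at h
    omega
  | succ s ih =>
    intro y hy h
    rcases step_cases s e with h1 | ⟨_, _, _, _, r, _, hr, h2⟩
    · rw [h1] at hy; exact ih y hy h
    · rcases h2 y hy with h3 | ⟨_, h3 | h3⟩
      · exact ih y h3 h
      · rw [h3]; exact hr.2.2.1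
      · exact h3.2.1

end Pool.Agent.helper56.MAD
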