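import Mathlib

set_option autoImplicit false

namespace Pool.Agent.helper56

/-- The string of the first `n` values of the characteristic function of `X`. -/
noncomputable def initSeg (X : Set ℕ) (n : ℕ) : List Bool :=
  open Classical in (List.range n).map (fun i => decide (i ∈ X))

/-- A computable binary tree: a computable set of finite binary strings that is closed
under initial segments. -/
structure IsComputableTree (T : Set (List Bool)) : Prop where
  /-- membership in `T` is decidable by an algorithm -/
  computable : ComputablePred (fun σ : List Bool => σ ∈ T)
  /-- `T` is closed under initial segments -/
  closed : ∀ σ τ : List Bool, σ <+: τ → τ ∈ T → σ ∈ T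

/-- `P` is a `Π⁰₁` class: the set of infinite paths through some computable binary tree,
where a set of natural numbers is identified with its characteristic function. -/
def IsPi01Class (P : Set (Set ℕ)) : Prop :=
  ∃ T : Set (List Bool), IsComputableTree T ∧ P = {X | ∀ n, initSeg X n ∈ T}

/-- A computable set of natural numbers. -/
def IsComputableSet (X : Set ℕ) : Prop := ComputablePred (fun n : ℕ => n ∈ X)

end Pool.Agent.helper56
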