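import Mathlib
import Pool.Agent.helper56.PiClassDefs
import Pool.Agent.helper56.MADConstr

set_option autoImplicit false

namespace Pool.Agent.helper56.MAD

open Nat.Partrec (Code)
open Nat.Partrec.Code (evaln eval)

/-- the set decided by strategy `e` in the limit -/
def Xset (e : ℕ) : Set ℕ := {y | ∃ s, y ∈ Dst s e}

/-- strategy `e` acts infinitely often -/
def Unb (e : ℕ) : Prop := ∀ n, ∃ s, n < (Dst s e).length

/-- the perfect squares -/
def Ysq : Set ℕ := {y | Nat.sqrt y * Nat.sqrt y = y}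

/-- the class, described without finite approximations -/
def InP (X : Set ℕ) : Prop :=
  (∀ k, ∃ y ∈ X, Nat.sqrt y = k) ∧
  (∀ y ∈ X, ∀ y' ∈ X, y' < y → Nat.sqrt y' ≠ Nat.sqrt y) ∧
  ∀ e, (∀ k ≤ e, k * k ∈ X) → (e + 1) * (e + 1) ∉ X →
    (∀ y ∈ X, e < Nat.sqrt y → Nat.sqrt y * Nat.sqrt y ≠ y) ∧
    (∀ s, ∀ y ∈ Dst s e, y ∈ X) ∧
    (∀ s, (e + 1) * (e + 1) < s → ∀ y ∈ X, y < s → ∀ y' ∈ X, y' < y →
      (Dst s e).length ≤ Nat.sqrt y' → bad s y → ¬ bad s y')

lemma mem_of_lt {e s y : ℕ} (hy : y ∈ Xset e) (h : Nat.sqrt y < (Dst s e).length) :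
    y ∈ Dst s e := by
  obtain ⟨t, ht⟩ := hy
  rcases le_total t s with hts | hts
  · exact (Dst_prefix hts e).subset ht
  · obtain ⟨y', hy', hs⟩ := (blk s e).exists h
    have := (blk t e).inj ((Dst_prefix hts e).subset hy') ht hs
    rwa [← this]

lemma bad_mono {s t y : ℕ} (h : s ≤ t) (hb : bad s y) : bad t y :=
  Nat.Partrec.Code.evaln_mono h hb

/-- the next action after stage `s` -/
lemma next_action {e s t : ℕ} (h : (Dst s e).length < (Dst t e).length) :
    ∃ u, s ≤ u ∧ Dst u e = Dst s e ∧ Dst (u + 1) e ≠ Dst u e := by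
  by_contra hcon
  push Not at hcon
  have hall : ∀ u, s ≤ u → Dst u e = Dst s e := by
    intro u hu
    induction u, hu using Nat.le_induction with
    | base => rfl
    | succ u hu ih => rw [hcon u hu ih, ih]
  rcases le_total s t with hst | hst
  · rw [hall t hst] at h; omega
  · have := (Dst_prefix hst e).length_le
    omega

lemma InP_Xset {e : ℕ} (hU : Unb e) : InP (Xset e) := by
  refine ⟨?_, ?_, ?_⟩
  · intro k
    obtain ⟨s, hs⟩ := hU k
    obtain ⟨y, hy, hk⟩ := (blk s e).exists hs
    exact ⟨y, ⟨s, hy⟩, hk⟩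
  · intro y hy y' hy' hlt hs
    obtain ⟨s, hs'⟩ := hU (Nat.sqrt y)
    have h1 := mem_of_lt hy hs'
    have h2 := mem_of_lt hy' (by rw [hs]; exact hs')
    have := (blk s e).inj h2 h1 hs
    omega
  · intro e' h1 h2
    have hee : e' = e := by
      rcases lt_trichotomy e' e with h | h | h
      · exact absurd ⟨0, sq_mem (s := 0) (e := e) (k := e' + 1) (by omega)⟩ h2
      · exact h
      · exfalso
        obtain ⟨s, hs⟩ := h1 (e + 1) (by omega)
        have := nonsq s e _ hs (by rw [Nat.sqrt_eq]; omega)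
        rw [Nat.sqrt_eq] at this
        exact this rfl
    subst hee
    refine ⟨?_, ?_, ?_⟩
    · rintro y ⟨s, hs⟩ hlt
      exact nonsq s e' y hs hlt
    · intro s y hy
      exact ⟨s, hy⟩
    · intro s _ y hy hys y' hy' hlt hlen hb hb'
      obtain ⟨t, ht⟩ := hU (Dst s e').length
      obtain ⟨u, hsu, hu1, hu2⟩ := next_action ht
      rcases step_cases u e' with h | ⟨_, hl, _, hpre, r, hr, hc, hall⟩
      · exact absurd h hu2
      have hsy : Nat.sqrt y < (Dst (u + 1) e').length := by
        rw [hl]; have := Nat.sqrt_le_self y; omega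
      have hsy' : Nat.sqrt y' < (Dst (u + 1) e').length := by
        rw [hl]; have := Nat.sqrt_le_self y'; omega
      have hle : Nat.sqrt y' ≤ Nat.sqrt y := Nat.sqrt_le_sqrt hlt.le
      have e1 : y = r := by
        rcases hall y (mem_of_lt hy hsy) with h | ⟨_, h | h⟩
        · have := (blk u e').sqrt_lt h
          rw [hu1] at this
          omega
        · exact h
        · exact absurd (bad_mono hsu hb) h.2.2.1
      have e2 : y' = r := by
        rcases hall y' (mem_of_lt hy' hsy') with h | ⟨_, h | h⟩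
        · have := (blk u e').sqrt_lt h
          rw [hu1] at this
          omega
        · exact h
        · exact absurd (bad_mono hsu hb') h.2.2.1
      omega

lemma primrec_len_lt (e : ℕ) :
    PrimrecPred (fun p : ℕ × ℕ => Nat.sqrt p.1 < (Dst p.2 e).length) :=
  Primrec.nat_lt.comp (primrec_sqrt.comp Primrec.fst)
    (Primrec.list_length.comp (primrec_Dst.comp Primrec.snd (Primrec.const e)))

lemma computable_Xset {e : ℕ} (hU : Unb e) : ComputablePred (fun y => y ∈ Xset e) := by
  have hf : Computable (fun y => Nat.find (hU (Nat.sqrt y))) :=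
    Computable.find (P := fun y s => Nat.sqrt y < (Dst s e).length)
      (primrec_len_lt e).computablePred (fun y => hU (Nat.sqrt y))
  have h1 : Computable (fun y => decide (y ∈ Dst (Nat.find (hU (Nat.sqrt y))) e)) := by
    have h2 : Primrec₂ (fun (y : ℕ) (L : List ℕ) => decide (y ∈ L)) := primrec_mem.decide
    exact h2.to_comp.comp Computable.id (primrec_Dst.to_comp.comp hf (Computable.const e))
  refine h1.computablePred.of_eq (fun y => ?_)
  constructor
  · intro h; exact ⟨_, h⟩
  · intro h; exact mem_of_lt h (Nat.find_spec (hU (Nat.sqrt y)))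

lemma eq_Xset {X : Set ℕ} (hX : InP X) {e : ℕ} (h1 : ∀ k ≤ e, k * k ∈ X)
    (h2 : (e + 1) * (e + 1) ∉ X) (hU : Unb e) : X = Xset e := by
  obtain ⟨hA, hB, hC⟩ := hX
  obtain ⟨_, hD, _⟩ := hC e h1 h2
  ext y
  constructor
  · intro hy
    obtain ⟨s, hs⟩ := hU (Nat.sqrt y)
    obtain ⟨y', hy', hk⟩ := (blk s e).exists hs
    have : y' = y := by
      rcases lt_trichotomy y' y with h | h | h
      · exact absurd hk (hB y hy y' (hD s y' hy') h)
      · exact h
      · exact absurd hk.symm (hB y' (hD s y' hy') y hy h)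
    exact ⟨s, this ▸ hy'⟩
  · rintro ⟨s, hs⟩
    exact hD s y hs

lemma exists_code_of_computable {f : ℕ → ℕ} (hf : Computable f) :
    ∃ c : Code, ∀ n, f n ∈ eval c n := by
  have h1 : Nat.Partrec (fun n => Part.some (f n)) := Partrec.nat_iff.1 hf
  obtain ⟨c, hc⟩ := Nat.Partrec.Code.exists_code.1 h1
  exact ⟨c, fun n => by rw [hc]; exact Part.mem_some _⟩

lemma not_computable {X : Set ℕ} (hX : InP X) {e : ℕ} (h1 : ∀ k ≤ e, k * k ∈ X)
    (h2 : (e + 1) * (e + 1) ∉ X) (hU : ¬ Unb e) : ¬ IsComputableSet X := by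
  classical
  intro hcomp
  obtain ⟨hA, hB, hC⟩ := hX
  obtain ⟨_, _, hE⟩ := hC e h1 h2
  unfold Unb at hU
  push Not at hU
  obtain ⟨n, hn⟩ := hU
  have hex : ∀ k, ∃ y, y ∈ X ∧ Nat.sqrt y = k := fun k => by
    obtain ⟨y, hy, hk⟩ := hA k
    exact ⟨y, hy, hk⟩
  have hf : Computable (fun k => Nat.find (hex k)) := by
    refine Computable.find (P := fun k y => y ∈ X ∧ Nat.sqrt y = k) ?_ hex
    have h3 : Computable (fun p : ℕ × ℕ => decide (p.2 ∈ X)) :=
      (ComputablePred.decide hcomp).comp Computable.snd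
    have h4 : Primrec (fun p : ℕ × ℕ => decide (Nat.sqrt p.2 = p.1)) :=
      (PrimrecRel.comp Primrec.eq (primrec_sqrt.comp Primrec.snd) Primrec.fst).decide
    have h5 : Computable (fun p : ℕ × ℕ => decide (p.2 ∈ X) && decide (Nat.sqrt p.2 = p.1)) :=
      Primrec.and.to_comp.comp h3 h4.to_comp
    refine (Computable.of_eq h5 (g := fun p : ℕ × ℕ => decide (p.2 ∈ X ∧ Nat.sqrt p.2 = p.1))
      (fun p => ?_)).computablePred
    simp
  obtain ⟨c, hc⟩ := exists_code_of_computable hf
  set j := Encodable.encode c with hj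
  have hcj : Denumerable.ofNat Code j = c := Denumerable.ofNat_encode c
  set k1 := Nat.pair j n with hk1
  set k2 := Nat.pair j (n + 1) with hk2
  have hlt : k1 < k2 := Nat.pair_lt_pair_right j (Nat.lt_succ_self n)
  obtain ⟨s1, hs1⟩ := Nat.Partrec.Code.evaln_complete.1 (hc k1)
  obtain ⟨s2, hs2⟩ := Nat.Partrec.Code.evaln_complete.1 (hc k2)
  set y' := Nat.find (hex k1) with hy'
  set y := Nat.find (hex k2) with hy
  have m1 : y' ∈ X ∧ Nat.sqrt y' = k1 := Nat.find_spec (hex k1)
  have m2 : y ∈ X ∧ Nat.sqrt y = k2 := Nat.find_spec (hex k2)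
  have hyy : y' < y := by
    by_contra hcon
    have := Nat.sqrt_le_sqrt (not_lt.1 hcon)
    rw [m1.2, m2.2] at this
    omega
  set s := s1 + s2 + y + 1 + (e + 1) * (e + 1) with hs
  have hb1 : bad s y' := by
    unfold bad
    rw [m1.2, hk1, Nat.unpair_pair]
    show evaln s (Denumerable.ofNat Code j) (Nat.pair j n) = some y'
    rw [hcj]
    exact Nat.Partrec.Code.evaln_mono (by omega) hs1
  have hb2 : bad s y := by
    unfold bad
    rw [m2.2, hk2, Nat.unpair_pair]
    show evaln s (Denumerable.ofNat Code j) (Nat.pair j (n + 1)) = some y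
    rw [hcj]
    exact Nat.Partrec.Code.evaln_mono (by omega) hs2
  refine hE s (by omega) y m2.1 (by omega) y' m1.1 hyy ?_ hb2 hb1
  rw [m1.2]
  exact (hn s).trans (Nat.right_le_pair j n)

lemma InP_Ysq : InP Ysq := by
  refine ⟨?_, ?_, ?_⟩
  · intro k
    exact ⟨k * k, by simp [Ysq, Nat.sqrt_eq], Nat.sqrt_eq k⟩
  · intro y hy y' hy' hlt hs
    simp only [Ysq, Set.mem_ofPred_eq] at hy hy'
    rw [← hy, ← hy', hs] at hlt
    omega
  · intro e _ h2
    exact absurd (by simp [Ysq, Nat.sqrt_eq]) h2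

lemma computable_Ysq : ComputablePred (fun y => y ∈ Ysq) := by
  have : PrimrecPred (fun y : ℕ => Nat.sqrt y * Nat.sqrt y = y) :=
    PrimrecRel.comp Primrec.eq (Primrec.nat_mul.comp primrec_sqrt primrec_sqrt) Primrec.id
  exact this.computablePred

lemma ad_aux {i e S : ℕ} (hie : i ≠ e) (h1 : i < (Dst S e).length) (h2 : e < (Dst S i).length)
    {t : ℕ} (ht : S ≤ t) : ∀ y, y ∈ Dst t i → y ∈ Dst t e → y ∈ Dst S i ∨ y ∈ Dst S e := by
  induction t, ht using Nat.le_induction with
  | base => intro y h _; exact Or.inl h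
  | succ t ht ih =>
    intro y hyi hye
    have l1 : (Dst S e).length ≤ (Dst t e).length := (Dst_prefix ht e).length_le
    have l2 : (Dst S i).length ≤ (Dst t i).length := (Dst_prefix ht i).length_le
    by_cases hi : i = (Nat.unpair t).1
    · have hne : e ≠ (Nat.unpair t).1 := fun h => hie (hi.trans h.symm)
      rw [Dst_succ_ne hne] at hye
      rcases step_cases t i with h | ⟨_, _, _, _, r, _, hc, hall⟩
      · rw [h] at hyi; exact ih y hyi hye
      · rcases hall y hyi with h | ⟨hl, h | h⟩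
        · exact ih y h hye
        · exfalso
          apply hc.2.2.2.2
          exact ⟨e, lt_of_lt_of_le h2 l2, h ▸ hye⟩
        · exfalso
          apply h.2.2.2
          exact ⟨e, lt_of_lt_of_le (lt_of_lt_of_le h2 l2) hl, hye⟩
    · rw [Dst_succ_ne hi] at hyi
      rcases step_cases t e with h | ⟨_, _, _, _, r, _, hc, hall⟩
      · rw [h] at hye; exact ih y hyi hye
      · rcases hall y hye with h | ⟨hl, h | h⟩
        · exact ih y hyi h
        · exfalso
          apply hc.2.2.2.2
          exact ⟨i, lt_of_lt_of_le h1 l1, h ▸ hyi⟩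
        · exfalso
          apply h.2.2.2
          exact ⟨i, lt_of_lt_of_le (lt_of_lt_of_le h1 l1) hl, hyi⟩

lemma ad_Xset {i e : ℕ} (hie : i ≠ e) (hi : Unb i) (he : Unb e) :
    (Xset i ∩ Xset e).Finite := by
  obtain ⟨s1, hs1⟩ := hi e
  obtain ⟨s2, hs2⟩ := he i
  have h1 : i < (Dst (s1 + s2) e).length :=
    lt_of_lt_of_le hs2 (Dst_prefix (by omega) e).length_le
  have h2 : e < (Dst (s1 + s2) i).length :=
    lt_of_lt_of_le hs1 (Dst_prefix (by omega) i).length_le
  refine Set.Finite.subset ((List.finite_toSet (Dst (s1 + s2) i)).union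
    (List.finite_toSet (Dst (s1 + s2) e))) ?_
  rintro y ⟨⟨t1, ht1⟩, ⟨t2, ht2⟩⟩
  have h3 : y ∈ Dst (s1 + s2 + t1 + t2) i := (Dst_prefix (by omega) i).subset ht1
  have h4 : y ∈ Dst (s1 + s2 + t1 + t2) e := (Dst_prefix (by omega) e).subset ht2
  exact ad_aux hie h1 h2 (by omega) y h3 h4

lemma ad_Ysq (e : ℕ) : (Ysq ∩ Xset e).Finite := by
  refine Set.Finite.subset (Set.finite_lt_nat ((e + 1) * (e + 1))) ?_
  rintro y ⟨hy, ⟨s, hs⟩⟩
  by_contra hcon
  simp only [Set.mem_ofPred_eq, not_lt] at hcon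
  have h1 := Nat.sqrt_le_sqrt hcon
  rw [Nat.sqrt_eq] at h1
  exact nonsq s e y hs (by omega) hy

/-- the computable members of the class -/
lemma computable_members {X : Set ℕ} (hX : InP X) (hc : IsComputableSet X) :
    X = Ysq ∨ ∃ e, Unb e ∧ X = Xset e := by
  classical
  by_cases hsq : ∀ k, k * k ∈ X
  · left
    obtain ⟨hA, hB, hC⟩ := hX
    ext y
    constructor
    · intro hy
      show Nat.sqrt y * Nat.sqrt y = y
      rcases lt_trichotomy (Nat.sqrt y * Nat.sqrt y) y with h | h | h
      · exact absurd (Nat.sqrt_eq _) (hB y hy _ (hsq _) h)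
      · exact h
      · exact absurd (Nat.sqrt_eq _).symm (hB _ (hsq _) y hy h)
    · intro hy
      have hy' : Nat.sqrt y * Nat.sqrt y = y := hy
      rw [← hy']; exact hsq _
  · right
    push Not at hsq
    have h0 : 0 * 0 ∈ X := by
      obtain ⟨y, hy, hk⟩ := hX.1 0
      rw [Nat.sqrt_eq_zero] at hk
      simpa [hk] using hy
    obtain ⟨m, hm, hmin⟩ : ∃ m, m * m ∉ X ∧ ∀ k < m, k * k ∈ X :=
      ⟨Nat.find hsq, Nat.find_spec hsq, fun k hk => by
        have := Nat.find_min hsq hk; exact not_not.1 this⟩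
    obtain ⟨e, rfl⟩ : ∃ e, m = e + 1 := by
      rcases m with _ | m
      · exact absurd h0 hm
      · exact ⟨m, rfl⟩
    have h1 : ∀ k ≤ e, k * k ∈ X := fun k hk => hmin k (by omega)
    by_cases hU : Unb e
    · exact ⟨e, hU, eq_Xset hX h1 hm hU⟩
    · exact absurd hc (not_computable hX h1 hm hU)

lemma finite_of_not_unb {e : ℕ} (h : ¬ Unb e) : (Xset e).Finite := by
  unfold Unb at h
  push Not at h
  obtain ⟨n, hn⟩ := h
  refine Set.Finite.subset (Set.finite_lt_nat ((n + 1) * (n + 1))) ?_
  rintro y ⟨s, hs⟩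
  have := (blk s e).sqrt_lt hs
  have h2 := hn s
  simp only [Set.mem_ofPred_eq]
  rw [← Nat.sqrt_lt]
  omega

lemma eventually_const {e : ℕ} (h : ¬ Unb e) : ∃ s0, ∀ t, s0 ≤ t → Dst t e = Dst s0 e := by
  by_contra hcon
  push Not at hcon
  apply h
  intro n
  induction n with
  | zero => exact ⟨0, by have := len_gt 0 e; omega⟩
  | succ n ih =>
    obtain ⟨s, hs⟩ := ih
    obtain ⟨t, ht, hne⟩ := hcon s
    refine ⟨t, ?_⟩
    have h1 := Dst_prefix ht e
    have h2 := h1.length_le
    rcases lt_or_eq_of_le h2 with h3 | h3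
    · omega
    · exact absurd (h1.eq_of_length h3).symm hne

lemma maximal {R : Set ℕ} (hR : IsComputableSet R) (hinf : R.Infinite) :
    (Ysq ∩ R).Infinite ∨ ∃ e, Unb e ∧ (Xset e ∩ R).Infinite := by
  classical
  have hf : Computable (fun n => if n ∈ R then 1 else 0 : ℕ → ℕ) :=
    ComputablePred.ite (Computable.const 1) (Computable.const 0) hR
  obtain ⟨c, hc⟩ := exists_code_of_computable hf
  set e := Encodable.encode c with he
  have hce : Denumerable.ofNat Code e = c := Denumerable.ofNat_encode c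
  by_cases hU : Unb e
  · right
    refine ⟨e, hU, ?_⟩
    apply Set.infinite_of_forall_exists_gt
    intro N
    obtain ⟨s, hs⟩ := hU N
    obtain ⟨t, ht⟩ := hU (Dst s e).length
    obtain ⟨u, hsu, hu1, hu2⟩ := next_action ht
    rcases step_cases u e with h | ⟨_, _, _, _, r, hr, hcr, _⟩
    · exact absurd h hu2
    refine ⟨r, ⟨⟨_, hr⟩, ?_⟩, ?_⟩
    · have h1 := hcr.2.2.2.1
      rw [hce] at h1
      have h2 := Nat.Partrec.Code.evaln_sound h1
      have h3 := Part.mem_unique h2 (hc r)
      by_contra hrR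
      rw [if_neg hrR] at h3
      exact absurd h3 (by decide)
    · have h1 : (Dst u e).length ≤ Nat.sqrt r := hcr.1
      rw [hu1] at h1
      have := Nat.sqrt_le_self r
      omega
  · obtain ⟨s0, hs0⟩ := eventually_const hU
    set q := (Dst s0 e).length with hq
    have hsub : R ⊆ {y | y < q * q} ∪ ((Ysq ∩ R) ∪ ⋃ i ∈ Finset.range q, (Xset i ∩ R)) := by
      intro r hr
      by_cases h1 : r < q * q
      · exact Or.inl h1
      right
      by_cases h2 : r ∈ Ysq
      · exact Or.inl ⟨h2, hr⟩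
      right
      have hqr : q ≤ Nat.sqrt r := by
        rw [Nat.le_sqrt]; omega
      have hcr := hc r
      rw [if_pos hr] at hcr
      obtain ⟨s1, hs1⟩ := Nat.Partrec.Code.evaln_complete.1 hcr
      set t := Nat.pair e (s0 + s1 + r + 1) with ht
      have ht1 : s0 + s1 + r + 1 ≤ t := Nat.right_le_pair _ _
      have ht2 : e = (Nat.unpair t).1 := by rw [ht, Nat.unpair_pair]
      have hnc : ¬ isCand t (St t) e r := by
        intro hcand
        have h3 := step_cand ht2 hcand
        rw [hs0 (t + 1) (by omega), hs0 t (by omega)] at h3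
        omega
      have hlen : (D (St t) e).length = q := by
        have := hs0 t (by omega)
        unfold Dst at this
        rw [this]; rfl
      have hused : used (St t) q r := by
        by_contra hnu
        apply hnc
        refine ⟨?_, ?_, h2, ?_, ?_⟩
        · rw [hlen]; exact hqr
        · have := Nat.sqrt_le_self r
          omega
        · rw [hce]
          exact Nat.Partrec.Code.evaln_mono (by omega) hs1
        · rw [hlen]; exact hnu
      obtain ⟨i, hi, hri⟩ := hused
      simp only [Set.mem_iUnion, Finset.mem_range]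
      exact ⟨i, hi, ⟨t, hri⟩, hr⟩
    have hinf2 := hinf.mono hsub
    rw [Set.infinite_union] at hinf2
    rcases hinf2 with h | h
    · exact absurd (Set.finite_lt_nat (q * q)) h
    rw [Set.infinite_union] at h
    rcases h with h | h
    · exact Or.inl h
    right
    by_contra hcon
    push Not at hcon
    apply h
    apply Set.Finite.biUnion (Finset.finite_toSet _)
    intro i _
    by_cases hUi : Unb i
    · exact Set.not_infinite.1 (fun h' => by
        have := hcon i hUi
        exact (Set.not_infinite.2 this) h')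
    · exact (finite_of_not_unb hUi).subset Set.inter_subset_left

end Pool.Agent.helper56.MAD
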