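import Mathlib
import Pool.Agent.helper56.PiClassDefs
import Pool.Agent.helper56.MADConstr
import Pool.Agent.helper56.MADProof

set_option autoImplicit false

namespace Pool.Agent.helper56.MAD

open Nat.Partrec (Code)
open Nat.Partrec.Code (evaln eval)

/-- the finite approximation of the class checked on the string `τ` -/
def ok (τ : List Bool) : Prop :=
  (∀ k < Nat.sqrt τ.length, ∃ y < τ.length, τ[y]? = some true ∧ Nat.sqrt y = k) ∧
  (∀ y < τ.length, ∀ y' < y, τ[y]? = some true → τ[y']? = some true →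
    Nat.sqrt y' ≠ Nat.sqrt y) ∧
  ∀ e < τ.length, (∀ k < e + 1, τ[k * k]? = some true) →
    τ[(e + 1) * (e + 1)]? = some false →
    (∀ y < τ.length, τ[y]? = some true → e < Nat.sqrt y → Nat.sqrt y * Nat.sqrt y ≠ y) ∧
    (∀ y ∈ Dst τ.length e, τ[y]? ≠ some false) ∧
    (∀ y < τ.length, ∀ y' < y, τ[y]? = some true → τ[y']? = some true →
      (Dst τ.length e).length ≤ Nat.sqrt y' → bad τ.length y → ¬ bad τ.length y')

lemma imp' {α : Type*} [Primcodable α] {p q : α → Prop} (hp : PrimrecPred p)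
    (hq : PrimrecPred q) : PrimrecPred (fun a => p a → q a) := by
  classical
  exact (hp.not.or hq).of_eq (fun a => by
    by_cases h : p a <;> simp [h])

lemma bit' {α : Type*} [Primcodable α] {τ : α → List Bool} {y : α → ℕ} (b : Bool)
    (hτ : Primrec τ) (hy : Primrec y) : PrimrecPred (fun a => (τ a)[y a]? = some b) :=
  PrimrecRel.comp Primrec.eq (Primrec.list_getElem?.comp hτ hy) (Primrec.const (some b))

lemma primrec_ok : PrimrecPred ok := by
  unfold ok
  have hlen : Primrec (fun τ : List Bool => τ.length) := Primrec.list_length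
  refine PrimrecPred.and ?_ (PrimrecPred.and ?_ ?_)
  · refine forall_lt' (primrec_sqrt.comp hlen) ?_
    refine exists_lt' (hlen.comp Primrec.fst) ?_
    refine PrimrecPred.and ?_ ?_
    · exact bit' true (Primrec.fst.comp Primrec.fst) Primrec.snd
    · exact PrimrecRel.comp Primrec.eq (primrec_sqrt.comp Primrec.snd)
        (Primrec.snd.comp Primrec.fst)
  · refine forall_lt' hlen ?_
    refine forall_lt' Primrec.snd ?_
    refine imp' (bit' true (Primrec.fst.comp Primrec.fst) (Primrec.snd.comp Primrec.fst)) ?_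
    refine imp' (bit' true (Primrec.fst.comp Primrec.fst) Primrec.snd) ?_
    exact PrimrecPred.not (PrimrecRel.comp Primrec.eq (primrec_sqrt.comp Primrec.snd)
      (primrec_sqrt.comp (Primrec.snd.comp Primrec.fst)))
  · refine forall_lt' hlen ?_
    refine imp' ?_ (imp' ?_ (PrimrecPred.and ?_ (PrimrecPred.and ?_ ?_)))
    · refine forall_lt' (Primrec.succ.comp Primrec.snd) ?_
      exact bit' true (Primrec.fst.comp Primrec.fst) (Primrec.nat_mul.comp Primrec.snd Primrec.snd)
    · exact bit' false Primrec.fst (Primrec.nat_mul.comp (Primrec.succ.comp Primrec.snd)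
        (Primrec.succ.comp Primrec.snd))
    · refine forall_lt' (hlen.comp Primrec.fst) ?_
      refine imp' (bit' true (Primrec.fst.comp Primrec.fst) Primrec.snd) ?_
      refine imp' (Primrec.nat_lt.comp (Primrec.snd.comp Primrec.fst)
        (primrec_sqrt.comp Primrec.snd)) ?_
      exact PrimrecPred.not (PrimrecRel.comp Primrec.eq
        (Primrec.nat_mul.comp (primrec_sqrt.comp Primrec.snd) (primrec_sqrt.comp Primrec.snd))
        Primrec.snd)
    · have h1 : PrimrecRel (fun (y : ℕ) (p : List Bool × ℕ) => p.1[y]? ≠ some false) :=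
        PrimrecPred.not (bit' false (Primrec.fst.comp Primrec.snd) Primrec.fst)
      have h2 := PrimrecRel.forall_mem_list h1
      exact h2.comp (primrec_Dst.comp (hlen.comp Primrec.fst) Primrec.snd) Primrec.id
    · refine forall_lt' (hlen.comp Primrec.fst) ?_
      refine forall_lt' Primrec.snd ?_
      refine imp' (bit' true (Primrec.fst.comp (Primrec.fst.comp Primrec.fst))
        (Primrec.snd.comp Primrec.fst)) ?_
      refine imp' (bit' true (Primrec.fst.comp (Primrec.fst.comp Primrec.fst)) Primrec.snd) ?_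
      have hl : Primrec (fun a : ((List Bool × ℕ) × ℕ) × ℕ => a.1.1.1.length) :=
        hlen.comp (Primrec.fst.comp (Primrec.fst.comp Primrec.fst))
      refine imp' (Primrec.nat_le.comp (Primrec.list_length.comp (primrec_Dst.comp hl
        (Primrec.snd.comp (Primrec.fst.comp Primrec.fst)))) (primrec_sqrt.comp Primrec.snd)) ?_
      refine imp' (primrec_bad.comp hl (Primrec.snd.comp Primrec.fst)) ?_
      exact PrimrecPred.not (primrec_bad.comp hl Primrec.snd)

/-- the tree -/
def Tr : Set (List Bool) := {τ | ∀ n < τ.length + 1, ok (τ.take n)}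

lemma tree_Tr : IsComputableTree Tr := by
  constructor
  · have h : PrimrecPred (fun τ : List Bool => ∀ n < τ.length + 1, ok (τ.take n)) := by
      refine forall_lt' (Primrec.succ.comp Primrec.list_length) ?_
      exact primrec_ok.comp (Primrec.list_take.comp Primrec.snd Primrec.fst)
    exact h.computablePred
  · intro σ τ hστ hτ n hn
    obtain ⟨ρ, rfl⟩ := hστ
    have h1 : n ≤ σ.length := Nat.lt_succ_iff.1 hn
    have h2 := hτ n (by rw [List.length_append]; omega)
    rwa [List.take_append_of_le_length h1] at h2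

lemma initSeg_length (X : Set ℕ) (n : ℕ) : (initSeg X n).length = n := by
  simp [initSeg]

lemma initSeg_take (X : Set ℕ) {m n : ℕ} (h : m ≤ n) :
    (initSeg X n).take m = initSeg X m := by
  unfold initSeg
  rw [← List.map_take, List.take_range, min_eq_left h]

lemma initSeg_true (X : Set ℕ) (n y : ℕ) : (initSeg X n)[y]? = some true ↔ y < n ∧ y ∈ X := by
  unfold initSeg
  by_cases h : y < n
  · rw [List.getElem?_map, List.getElem?_range h]; simp [h]
  · rw [List.getElem?_eq_none (by simpa using h)]; simp [h]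

lemma initSeg_false (X : Set ℕ) (n y : ℕ) : (initSeg X n)[y]? = some false ↔ y < n ∧ y ∉ X := by
  unfold initSeg
  by_cases h : y < n
  · rw [List.getElem?_map, List.getElem?_range h]; simp [h]
  · rw [List.getElem?_eq_none (by simpa using h)]; simp [h]

lemma mem_paths_iff (X : Set ℕ) : (∀ n, initSeg X n ∈ Tr) ↔ ∀ n, ok (initSeg X n) := by
  constructor
  · intro h n
    have := h n n (by rw [initSeg_length]; omega)
    rwa [initSeg_take X le_rfl] at this
  · intro h n m hm
    rw [initSeg_length] at hm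
    rw [initSeg_take X (by omega)]
    exact h m

lemma InP_of_ok {X : Set ℕ} (h : ∀ n, ok (initSeg X n)) : InP X := by
  simp only [ok, initSeg_length, initSeg_true, initSeg_false, ne_eq] at h
  refine ⟨?_, ?_, ?_⟩
  · intro k
    obtain ⟨y, hy, ⟨_, hyX⟩, hk⟩ := (h ((k + 1) * (k + 1))).1 k (by rw [Nat.sqrt_eq]; omega)
    exact ⟨y, hyX, hk⟩
  · intro y hy y' hy' hlt
    exact (h (y + 1)).2.1 y (by omega) y' hlt ⟨by omega, hy⟩ ⟨by omega, hy'⟩
  · intro e h1 h2
    have key : ∀ n, (e + 1) * (e + 1) < n →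
      (∀ y < n, y < n ∧ y ∈ X → e < Nat.sqrt y → Nat.sqrt y * Nat.sqrt y ≠ y) ∧
      (∀ y ∈ Dst n e, ¬ (y < n ∧ y ∉ X)) ∧
      (∀ y < n, ∀ y' < y, y < n ∧ y ∈ X → y' < n ∧ y' ∈ X →
      (Dst n e).length ≤ Nat.sqrt y' → bad n y → ¬ bad n y') := by
      intro n hn
      have hen : e + 1 ≤ (e + 1) * (e + 1) := Nat.le_mul_self _
      refine (h n).2.2 e (by omega) (fun k hk => ⟨?_, h1 k (by omega)⟩) ⟨hn, h2⟩
      have : k * k ≤ (e + 1) * (e + 1) := Nat.mul_le_mul (by omega) (by omega)
      omega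
    refine ⟨?_, ?_, ?_⟩
    · intro y hy
      exact (key (y + 1 + (e + 1) * (e + 1)) (by omega)).1 y (by omega) ⟨by omega, hy⟩
    · intro s y hy
      by_contra hcon
      have hy' : y ∈ Dst (s + y + 1 + (e + 1) * (e + 1)) e :=
        (Dst_prefix (by omega) e).subset hy
      exact (key (s + y + 1 + (e + 1) * (e + 1)) (by omega)).2.1 y hy' ⟨by omega, hcon⟩
    · intro s hs y hy hys y' hy' hlt
      exact (key s hs).2.2 y hys y' hlt ⟨hys, hy⟩ ⟨by omega, hy'⟩

lemma ok_of_InP {X : Set ℕ} (h : InP X) (n : ℕ) : ok (initSeg X n) := by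
  simp only [ok, initSeg_length, initSeg_true, initSeg_false, ne_eq]
  obtain ⟨hA, hB, hC⟩ := h
  refine ⟨?_, ?_, ?_⟩
  · intro k hk
    obtain ⟨y, hy, hyk⟩ := hA k
    have h1 : y < (k + 1) * (k + 1) := by rw [← Nat.sqrt_lt]; omega
    have h2 : (k + 1) * (k + 1) ≤ n := by rw [← Nat.le_sqrt]; omega
    exact ⟨y, by omega, ⟨by omega, hy⟩, hyk⟩
  · intro y _ y' hlt ⟨_, hy⟩ ⟨_, hy'⟩
    exact hB y hy y' hy' hlt
  · intro e _ h1 ⟨h2, h3⟩
    obtain ⟨c1, c2, c3⟩ := hC e (fun k hk => (h1 k (by omega)).2) h3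
    refine ⟨?_, ?_, ?_⟩
    · intro y _ ⟨_, hy⟩
      exact c1 y hy
    · intro y hy ⟨_, hyX⟩
      exact hyX (c2 n y hy)
    · intro y hyn y' hlt ⟨_, hy⟩ ⟨_, hy'⟩
      exact c3 n h2 y hy hyn y' hy' hlt

/-- the class -/
def PP : Set (Set ℕ) := {X | ∀ n, initSeg X n ∈ Tr}

lemma mem_PP (X : Set ℕ) : X ∈ PP ↔ InP X := by
  unfold PP
  rw [Set.mem_ofPred_eq, mem_paths_iff]
  exact ⟨InP_of_ok, ok_of_InP⟩

lemma class_PP : IsPi01Class PP := ⟨Tr, tree_Tr, rfl⟩

lemma infinite_of_mem {X : Set ℕ} (h : X ∈ PP) : X.Infinite := by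
  rw [mem_PP] at h
  apply Set.infinite_of_forall_exists_gt
  intro N
  obtain ⟨y, hy, hk⟩ := h.1 (N + 1)
  refine ⟨y, hy, ?_⟩
  have := Nat.sqrt_le_self y
  omega

lemma pairwise_ad {X Y : Set ℕ} (hX : X ∈ PP) (hY : Y ∈ PP) (cX : IsComputableSet X)
    (cY : IsComputableSet Y) (hne : X ≠ Y) : (X ∩ Y).Finite := by
  rw [mem_PP] at hX hY
  rcases computable_members hX cX with rfl | ⟨e, he, rfl⟩ <;>
  rcases computable_members hY cY with rfl | ⟨i, hi, rfl⟩
  · exact absurd rfl hne
  · exact ad_Ysq i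
  · rw [Set.inter_comm]; exact ad_Ysq e
  · exact ad_Xset (fun h => hne (by rw [h])) he hi

lemma exists_catch {R : Set ℕ} (hR : IsComputableSet R) (hinf : R.Infinite) :
    ∃ X ∈ PP, IsComputableSet X ∧ (X ∩ R).Infinite := by
  rcases maximal hR hinf with h | ⟨e, he, h⟩
  · exact ⟨Ysq, (mem_PP _).2 InP_Ysq, computable_Ysq, h⟩
  · exact ⟨Xset e, (mem_PP _).2 (InP_Xset he), computable_Xset he, h⟩

lemma computable_avoid (F : Finset (Set ℕ)) (hF : ∀ X ∈ F, IsComputableSet X) :
    IsComputableSet {y | ∀ X ∈ F, y ∉ X} := by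
  classical
  induction F using Finset.induction_on with
  | empty =>
    have : IsComputableSet (Set.univ : Set ℕ) := by
      have h : Primrec (fun _ : ℕ => true) := Primrec.const true
      refine ⟨fun _ => isTrue trivial, ?_⟩
      exact h.to_comp.of_eq (fun n => by simp)
    simpa using this
  | insert X F hXF ih =>
    have h1 := ih (fun Y hY => hF Y (Finset.mem_insert_of_mem hY))
    have h2 : ComputablePred (fun y : ℕ => ¬ (y ∈ X)) := (hF X (Finset.mem_insert_self X F)).not
    have h3 : Computable (fun y : ℕ => decide (y ∉ X) && decide (y ∈ {y | ∀ X ∈ F, y ∉ X})) :=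
      Primrec.and.to_comp.comp h2.decide h1.decide
    refine (Computable.computablePred (p := fun y : ℕ => y ∈ {y | ∀ X_1 ∈ insert X F, y ∉ X_1})
      (h3.of_eq (fun y => ?_)))
    simp

lemma infinitely_many : {X | X ∈ PP ∧ IsComputableSet X}.Infinite := by
  classical
  intro hfin
  set F := hfin.toFinset with hF
  have hmem : ∀ X, X ∈ F ↔ X ∈ PP ∧ IsComputableSet X := fun X => by
    rw [hF, Set.Finite.mem_toFinset]; rfl
  have hcomp : IsComputableSet {y | ∀ X ∈ F, y ∉ X} :=
    computable_avoid F (fun X hX => ((hmem X).1 hX).2)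
  have hinf : {y | ∀ X ∈ F, y ∉ X}.Infinite := by
    apply Set.infinite_of_forall_exists_gt
    intro N
    set k := N + 1 + F.card with hk
    -- one element of each member in the block `k`
    have hch : ∀ X : Set ℕ, ∃ y, X ∈ PP → ∀ z ∈ X, Nat.sqrt z = k → z = y := by
      intro X
      by_cases hX : X ∈ PP
      · obtain ⟨y, hy, hyk⟩ := ((mem_PP X).1 hX).1 k
        refine ⟨y, fun _ z hz hzk => ?_⟩
        rcases lt_trichotomy z y with h | h | h
        · exact absurd (hzk.trans hyk.symm) (((mem_PP X).1 hX).2.1 y hy z hz h)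
        · exact h
        · exact absurd (hyk.trans hzk.symm) (((mem_PP X).1 hX).2.1 z hz y hy h)
      · exact ⟨0, fun h => absurd h hX⟩
    choose g hg using hch
    have hcard : (F.image g).card < (Finset.Icc (k * k) (k * k + 2 * k)).card := by
      refine lt_of_le_of_lt Finset.card_image_le ?_
      rw [Nat.card_Icc]; omega
    obtain ⟨y, hy, hyF⟩ := Finset.exists_mem_notMem_of_card_lt_card hcard
    rw [Finset.mem_Icc] at hy
    have hsq : Nat.sqrt y = k := by
      obtain ⟨j, rfl⟩ := Nat.exists_eq_add_of_le hy.1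
      exact sqrt_mul_add (by omega)
    refine ⟨y, ?_, ?_⟩
    · intro X hX hyX
      apply hyF
      rw [Finset.mem_image]
      exact ⟨X, hX, (hg X ((hmem X).1 hX).1 y hyX hsq).symm⟩
    · have := Nat.sqrt_le_self y
      omega
  obtain ⟨X, hX, cX, hXR⟩ := exists_catch hcomp hinf
  apply hXR
  have : X ∩ {y | ∀ X ∈ F, y ∉ X} = ∅ := by
    ext y
    simp only [Set.mem_inter_iff, Set.mem_empty_iff_false, iff_false, not_and]
    intro hy hall
    exact hall X ((hmem X).2 ⟨hX, cX⟩) hy
  rw [this]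
  exact Set.finite_empty

end Pool.Agent.helper56.MAD
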